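import Mathlib

set_option autoImplicit false

namespace Pool.Agent.Results.MP_5790d7_co.Secable

/-- A embeds in B. -/
def Emb (A B : Type) [LinearOrder A] [LinearOrder B] : Prop := Nonempty (A ↪o B)

/-- A embeds in B but B does not embed in A. -/
def SEmb (A B : Type) [LinearOrder A] [LinearOrder B] : Prop := Emb A B ∧ ¬ Emb B A

abbrev A : Type := WithBot (OrderDual ℕ)

theorem not_emb {B : Type} [LinearOrder B] (h : ∀ b : B, (Set.Ici b).Finite) : ¬ Emb A B := by
  rintro ⟨f⟩
  have h1 : Set.range f ⊆ Set.Ici (f ⊥) := by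
    rintro _ ⟨a, rfl⟩
    exact f.monotone bot_le
  have : Infinite A := Infinite.of_injective _ WithBot.coe_injective
  exact Set.infinite_range_of_injective f.injective ((h _).subset h1)

theorem emb_of_mem (X : Set A) (hX : IsLowerSet X) (n : ℕ) (hn : ((OrderDual.toDual n : ℕᵒᵈ) : A) ∈ X) :
    Emb A X := by
  refine ⟨OrderEmbedding.ofStrictMono (fun a => ⟨a.map (fun m => OrderDual.toDual (OrderDual.ofDual m + n)),
    hX ?_ hn⟩) ?_⟩
  · induction a using WithBot.recBotCoe with
    | bot => exact bot_le
    | coe m => exact WithBot.coe_le_coe.2 (Nat.le_add_left n _)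
  · intro a b hab
    exact (WithBot.strictMono_map_iff (f := fun m : OrderDual ℕ =>
      OrderDual.toDual (OrderDual.ofDual m + n))).2 (fun x y h => Nat.add_lt_add_right h n) hab

/-- A countable chain in which every strictly smaller initial interval can be doubled need not be
unsecable. -/
theorem result :
    ¬ ∀ (A : Type) [LinearOrder A] [Countable A],
      (∀ X : Set A, IsLowerSet X → SEmb X A → SEmb (X ⊕ₗ X) A) →
      ∀ B : Set A, IsLowerSet B → Emb A B ∨ Emb A (Bᶜ : Set A) := by
  intro h
  have h1 := h A (by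
    intro X hX hlt
    have h2 : ∀ a : X, a.1 = ⊥ := by
      rintro ⟨a, ha⟩
      induction a using WithBot.recBotCoe with
      | bot => rfl
      | coe m => exact absurd (emb_of_mem X hX _ ha) hlt.2
    have : Subsingleton X := ⟨fun a b => Subtype.ext ((h2 a).trans (h2 b).symm)⟩
    refine ⟨⟨OrderEmbedding.ofStrictMono (fun s => Sum.elim (fun _ => (⊥ : A))
      (fun _ => ((OrderDual.toDual 0 : ℕᵒᵈ) : A)) (ofLex s)) ?_⟩, not_emb fun _ => by
        have : Finite (X ⊕ₗ X) := inferInstanceAs (Finite (X ⊕ X))
        exact Set.toFinite _⟩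
    rintro (a | a) (b | b) hab
    · exact absurd (Sum.Lex.inl_lt_inl_iff.1 hab) (by rw [Subsingleton.elim a b]; exact lt_irrefl _)
    · exact WithBot.bot_lt_coe _
    · exact absurd hab Sum.Lex.not_inr_lt_inl
    · exact absurd (Sum.Lex.inr_lt_inr_iff.1 hab) (by rw [Subsingleton.elim a b]; exact lt_irrefl _))
    {⊥} (fun _ _ h ha => le_bot_iff.1 (ha ▸ h))
  rcases h1 with h1 | h1
  · exact not_emb (fun _ => Set.toFinite _) h1
  · refine not_emb (fun b => ?_) h1
    obtain ⟨b, hb⟩ := b
    induction b using WithBot.recBotCoe with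
    | bot => exact absurd rfl hb
    | coe m =>
      refine Set.Finite.of_finite_image (f := Subtype.val) ?_ Subtype.val_injective.injOn
      refine ((Set.finite_Iic (OrderDual.ofDual m)).image
        (fun k => ((OrderDual.toDual k : ℕᵒᵈ) : A))).subset ?_
      rintro _ ⟨⟨c, hc⟩, h, rfl⟩
      induction c using WithBot.recBotCoe with
      | bot => exact absurd rfl hc
      | coe k => exact ⟨OrderDual.ofDual k, WithBot.coe_le_coe.1 h, rfl⟩

end Pool.Agent.Results.MP_5790d7_co.Secable
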